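import Pool.Agent.helper15.XE.SpecC

/-!
# xe:SWT (helper66): the switched sets (port of helper73/EC/SWT)
-/

set_option autoImplicit false

namespace Pool.Agent.XE

open Finset ArithmeticFunction
open Pool.Agent.EC (tri TL wt mt Adm)

private theorem SWT_nat {b : Bool} {r : ℕ} (hr : r ∈ Icc 3 5) {j : Fin r → ℕ} (hj : j ∈ JX b r) :
    (∀ i, 6 ≤ j i) ∧ (∀ i, 2 * (j i + 1) ≤ hX r) ∧ hX r < 3 * ∑ i, j i ∧ ∑ i, j i + r < hX r ∧
      (∀ i, j i + ∑ k, j k ≤ hX r) ∧ (4 ≤ r ∨ r = 3 ∧ hX r = 232) := by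
  rw [Finset.mem_Icc] at hr
  unfold JX at hj
  rw [Finset.mem_filter, Fintype.mem_piFinset] at hj
  obtain ⟨hm, hs⟩ := hj
  have hmem : ∀ i, zX r ≤ j i ∧ (i.val ≠ 0 → yX r ≤ j i) := by
    intro i
    have h := hm i
    have hzy : zX r ≤ yX r := by
      unfold zX yX
      split_ifs <;> norm_num
    split_ifs at h with hc
    · rw [Finset.mem_Ico] at h
      exact ⟨h.1, fun h0 => absurd hc.2 h0⟩
    · rw [Finset.mem_Ico] at h
      exact ⟨hzy.trans h.1, fun _ => h.1⟩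
  have hr3 : r = 3 ∨ r = 4 ∨ r = 5 := by omega
  rcases hr3 with rfl | rfl | rfl
  · have e1 : hX 3 = 232 := rfl
    have e2 : zX 3 = 12 := rfl
    have e3 : yX 3 = 40 := rfl
    rw [e1]
    rw [e1] at hs
    simp only [e2, e3] at hmem
    have a0 := (hmem 0).1
    have a1 := (hmem 1).2 (by decide)
    have a2 := (hmem 2).2 (by decide)
    have s0 := hs 0
    have s1 := hs 1
    have s2 := hs 2
    rw [Fin.sum_univ_three] at s0 s1 s2 ⊢
    refine ⟨?_, ?_, by omega, by omega, ?_, Or.inr ⟨rfl, rfl⟩⟩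
    · intro i
      fin_cases i <;> simp <;> omega
    · intro i
      fin_cases i <;> simp <;> omega
    · intro i
      have := hs i
      rw [Fin.sum_univ_three] at this
      exact this
  · have e1 : hX 4 = 116 := rfl
    have e2 : zX 4 = 6 := rfl
    have e3 : yX 4 = 20 := rfl
    rw [e1]
    rw [e1] at hs
    simp only [e2, e3] at hmem
    have a0 := (hmem 0).1
    have a1 := (hmem 1).2 (by decide)
    have a2 := (hmem 2).2 (by decide)
    have a3 := (hmem 3).2 (by decide)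
    have s0 := hs 0
    have s1 := hs 1
    have s2 := hs 2
    have s3 := hs 3
    rw [Fin.sum_univ_four] at s0 s1 s2 s3 ⊢
    refine ⟨?_, ?_, by omega, by omega, ?_, Or.inl le_rfl⟩
    · intro i
      fin_cases i <;> simp <;> omega
    · intro i
      fin_cases i <;> simp <;> omega
    · intro i
      have := hs i
      rw [Fin.sum_univ_four] at this
      exact this
  · have e1 : hX 5 = 116 := rfl
    have e2 : zX 5 = 6 := rfl
    have e3 : yX 5 = 20 := rfl
    rw [e1]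
    rw [e1] at hs
    simp only [e2, e3] at hmem
    have a0 := (hmem 0).1
    have a1 := (hmem 1).2 (by decide)
    have a2 := (hmem 2).2 (by decide)
    have a3 := (hmem 3).2 (by decide)
    have a4 := (hmem 4).2 (by decide)
    have s0 := hs 0
    have s1 := hs 1
    have s2 := hs 2
    have s3 := hs 3
    have s4 := hs 4
    rw [Fin.sum_univ_five] at s0 s1 s2 s3 s4 ⊢
    refine ⟨?_, ?_, by omega, by omega, ?_, Or.inl (by norm_num)⟩
    · intro i
      fin_cases i <;> simp <;> omega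
    · intro i
      fin_cases i <;> simp <;> omega
    · intro i
      have := hs i
      rw [Fin.sum_univ_five] at this
      exact this

private theorem SWT_AdX {b : Bool} {r : ℕ} (hr : r ∈ Icc 3 5) {j : Fin r → ℕ} (hj : j ∈ JX b r) :
    AdX (aX j) (bX j) := by
  obtain ⟨h1, h2, h3, h4, h5, h6⟩ := SWT_nat hr hj
  have hH0 : 0 < hX r := by omega
  have hH : (0 : ℝ) < (hX r : ℝ) := by exact_mod_cast hH0
  have eb : ∑ i, bX j i = 3 * (((∑ i, j i : ℕ) : ℝ) + r) / (hX r : ℝ) := by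
    unfold bX
    rw [Nat.cast_sum, mul_add, Finset.mul_sum, add_div, Finset.sum_div]
    have : ∑ i : Fin r, 3 * ((j i : ℝ) + 1) / (hX r : ℝ) =
        ∑ i : Fin r, (3 * (j i : ℝ) / (hX r : ℝ) + 3 / (hX r : ℝ)) :=
      Finset.sum_congr rfl fun i _ => by ring
    rw [this, Finset.sum_add_distrib, Finset.sum_const, Finset.card_univ, Fintype.card_fin,
      nsmul_eq_mul]
    ring
  refine ⟨fun i => ⟨?_, ?_⟩, ?_, ?_, ?_⟩
  · have : (6 : ℝ) ≤ (j i : ℝ) := by exact_mod_cast h1 i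
    unfold aX
    positivity
  · have : 2 * ((j i : ℝ) + 1) ≤ (hX r : ℝ) := by exact_mod_cast h2 i
    unfold bX
    rw [div_le_iff₀ hH]
    linarith
  · have e : ∑ i, aX j i = 3 * ((∑ i, j i : ℕ) : ℝ) / (hX r : ℝ) := by
      unfold aX
      rw [Nat.cast_sum, Finset.mul_sum, Finset.sum_div]
    rw [e, lt_div_iff₀ hH, one_mul]
    exact_mod_cast h3
  · rw [eb, div_lt_iff₀ hH]
    have : ((∑ i, j i : ℕ) : ℝ) + r < (hX r : ℝ) := by exact_mod_cast h4
    linarith
  · rcases h6 with h6 | ⟨h6, h7⟩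
    · exact Or.inl h6
    · refine Or.inr ⟨h6, fun i => ?_⟩
      rw [eb]
      unfold bX
      have h8 : (j i : ℝ) + ((∑ i, j i : ℕ) : ℝ) ≤ (hX r : ℝ) := by exact_mod_cast h5 i
      rw [h7] at h8 ⊢
      have h9 : (r : ℝ) = 3 := by rw [h6]; norm_num
      rw [h9]
      push_cast at h8 ⊢
      linarith

private theorem SWT_coef {b : Bool} {r : ℕ} (hr : r ∈ Icc 3 5) {j : Fin r → ℕ} (hj : j ∈ JX b r) :
    0 ≤ om b r * pX r (∑ i, j i) := by
  obtain ⟨h1, h2, h3, h4, h5, h6⟩ := SWT_nat hr hj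
  have h7 : ((∑ i, j i : ℕ) : ℝ) + r < (hX r : ℝ) := by exact_mod_cast h4
  apply mul_nonneg
  · unfold om
    split_ifs <;> positivity
  · unfold pX
    apply div_nonneg (Nat.cast_nonneg _)
    linarith

theorem SWT (h1 : SWI_stmt) (h2 : CMW_stmt) (h3 : WCT_stmt) (h4 : DPR_stmt) (h5 : WVB_stmt) :
    SWT_stmt := by
  intro ε' K hε' hK
  -- the total mass of the coefficients
  set S : ℝ := ∑ b : Bool, ∑ r ∈ Icc 3 5, ∑ j ∈ JX b r, om b r * pX r (∑ i, j i) with hS
  have hS0 : 0 ≤ S := by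
    apply Finset.sum_nonneg
    intro b _
    apply Finset.sum_nonneg
    intro r hr
    apply Finset.sum_nonneg
    intro j hj
    exact SWT_coef hr hj
  set κ : ℝ := ε' / ((S + 1) * K) with hκ
  have hκ0 : 0 < κ := by positivity
  set η : ℝ := ε' / (S + 1) with hη
  have hη0 : 0 < η := by positivity
  clear_value κ η S
  -- engine for every tuple of cells
  have key : ∀ b : Bool, ∀ r ∈ Icc 3 5, ∀ j ∈ JX b r, ∀ᶠ N : ℕ in Filter.atTop,
      (∀ V : Finset ℝ, AdV N V → ∀ l : ℕ → ℝ, Adm K (QV N) l → (∀ a : ℕ, 1 ≤ a → 0 ≤ wt l a) →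
        mt (QV N) l ≤ K / Real.log N →
        ∑ m ∈ Z3 N with m % 30 = 7, TL N (aX j) (bX j) m * fV N V m * wt l (m - 6) ≤
          1 / 8 * (∑ m ∈ Z3 N, TL N (aX j) (bX j) m * fV N V m) * mt (QV N) l +
            η * #V * (N : ℝ) ^ 2 / Real.log N) ∧
      ∀ v : ℝ, InB N v → ∑ m ∈ Z3 N, TL N (aX j) (bX j) m * wv N v m ≤
        (∏ i, Real.log (((j i : ℝ) + 1) / j i) + 2 * κ) * Xv N v := by
    intro b r hr j hj
    have hA := SWT_AdX hr hj
    obtain ⟨hm1, hm2, hm3, hm4, hm5, hm6⟩ := SWT_nat hr hj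
    obtain ⟨N₁, hN₁⟩ := h1 r (aX j) (bX j) hA η K hη0 hK
    have hD : 0 ≤ ∏ i, Real.log (((j i : ℝ) + 1) / j i) := by
      apply Finset.prod_nonneg
      intro i _
      apply Real.log_nonneg
      have : (6 : ℝ) ≤ (j i : ℝ) := by exact_mod_cast hm1 i
      rw [le_div_iff₀ (by linarith)]
      linarith
    obtain ⟨N₂, hN₂⟩ := h2 r (aX j) (bX j) hA (∏ i, Real.log (((j i : ℝ) + 1) / j i) + κ)
      (by linarith) (fun B => h3 r j (fun i => by have := hm1 i; omega)
        (by rw [Finset.sum_add_distrib, Finset.sum_const, Finset.card_univ, Fintype.card_fin,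
              smul_eq_mul, mul_one]; omega) κ hκ0 B) κ hκ0
    filter_upwards [Filter.eventually_ge_atTop N₁, Filter.eventually_ge_atTop N₂] with N ha hb
    refine ⟨fun V hV l hl hw hmt => hN₁ N ha V hV l hl hw hmt, ?_⟩
    intro v hv
    refine (hN₂ N hb v hv).trans (le_of_eq ?_)
    ring
  have key2 : ∀ᶠ N : ℕ in Filter.atTop, ∀ b : Bool, ∀ r ∈ Icc 3 5, ∀ j ∈ JX b r,
      (∀ V : Finset ℝ, AdV N V → ∀ l : ℕ → ℝ, Adm K (QV N) l → (∀ a : ℕ, 1 ≤ a → 0 ≤ wt l a) →
        mt (QV N) l ≤ K / Real.log N →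
        ∑ m ∈ Z3 N with m % 30 = 7, TL N (aX j) (bX j) m * fV N V m * wt l (m - 6) ≤
          1 / 8 * (∑ m ∈ Z3 N, TL N (aX j) (bX j) m * fV N V m) * mt (QV N) l +
            η * #V * (N : ℝ) ^ 2 / Real.log N) ∧
      ∀ v : ℝ, InB N v → ∑ m ∈ Z3 N, TL N (aX j) (bX j) m * wv N v m ≤
        (∏ i, Real.log (((j i : ℝ) + 1) / j i) + 2 * κ) * Xv N v := by
    rw [Filter.eventually_all]
    intro b
    rw [Filter.eventually_all_finset]
    intro r hr
    rw [Filter.eventually_all_finset]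
    intro j hj
    exact key b r hr j hj
  obtain ⟨N₁, hN₁⟩ := Filter.eventually_atTop.1 key2
  obtain ⟨N₂, hN₂12, hN₂⟩ := h5
  refine ⟨max (max N₁ N₂) 3, ?_⟩
  intro N hN V hV l hl hw hmt0 hmt
  have hNa : N₁ ≤ N := le_trans (le_trans (le_max_left _ _) (le_max_left _ _)) hN
  have hNb : N₂ ≤ N := le_trans (le_trans (le_max_right _ _) (le_max_left _ _)) hN
  have hN3 : 3 ≤ N := le_trans (le_max_right _ _) hN
  have hN3' : (3 : ℝ) ≤ (N : ℝ) := by exact_mod_cast hN3
  have hlog : 0 < Real.log N := Real.log_pos (by linarith)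
  obtain ⟨hV1, hV2, hV3⟩ := hV
  have hXv := (hN₂ N hNb).1
  have hX0 : 0 ≤ XV N V := by
    unfold XV
    exact Finset.sum_nonneg fun v hv => le_trans (by positivity) (hXv v (hV1 v hv)).2.1
  have hX2 : XV N V ≤ 6 * #V * (N : ℝ) ^ 2 := by
    unfold XV
    refine (Finset.sum_le_sum fun v hv => (hXv v (hV1 v hv)).2.2.1).trans (le_of_eq ?_)
    rw [Finset.sum_const, nsmul_eq_mul]
    ring
  have hk := hN₁ N hNa
  -- exchange of the sums
  have hswap : ∑ m ∈ Z3 N with m % 30 = 7, TS N m * fV N V m * wt l (m - 6) =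
      ∑ b : Bool, ∑ r ∈ Icc 3 5, ∑ j ∈ JX b r,
        om b r * pX r (∑ i, j i) / (3 * Real.log N) *
          ∑ m ∈ Z3 N with m % 30 = 7, TL N (aX j) (bX j) m * fV N V m * wt l (m - 6) := by
    simp only [TS, Finset.sum_mul]
    rw [Finset.sum_comm]
    refine Finset.sum_congr rfl fun b _ => ?_
    rw [Finset.sum_comm]
    refine Finset.sum_congr rfl fun r _ => ?_
    rw [Finset.sum_comm]
    refine Finset.sum_congr rfl fun j _ => ?_
    rw [Finset.mul_sum]
    refine Finset.sum_congr rfl fun m _ => ?_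
    ring
  rw [hswap]
  -- termwise bound
  have hterm : ∀ b : Bool, ∀ r ∈ Icc 3 5, ∀ j ∈ JX b r,
      om b r * pX r (∑ i, j i) / (3 * Real.log N) *
          ∑ m ∈ Z3 N with m % 30 = 7, TL N (aX j) (bX j) m * fV N V m * wt l (m - 6) ≤
      1 / 8 * (XV N V / (3 * Real.log N)) * mt (QV N) l *
        (om b r * pX r (∑ i, j i) * ∏ i, Real.log (((j i : ℝ) + 1) / j i)) +
      (1 / 8 * (XV N V / (3 * Real.log N)) * mt (QV N) l * (2 * κ) +
        η * #V * (N : ℝ) ^ 2 / (3 * Real.log N ^ 2)) * (om b r * pX r (∑ i, j i)) := by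
    intro b r hr j hj
    obtain ⟨ha, hb⟩ := hk b r hr j hj
    have hc := ha V ⟨hV1, hV2, hV3⟩ l hl hw hmt
    have hsum : ∑ m ∈ Z3 N, TL N (aX j) (bX j) m * fV N V m ≤
        (∏ i, Real.log (((j i : ℝ) + 1) / j i) + 2 * κ) * XV N V := by
      have e : ∑ m ∈ Z3 N, TL N (aX j) (bX j) m * fV N V m =
          ∑ v ∈ V, ∑ m ∈ Z3 N, TL N (aX j) (bX j) m * wv N v m := by
        rw [Finset.sum_comm]
        refine Finset.sum_congr rfl fun m _ => ?_
        unfold fV
        rw [Finset.mul_sum]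
      rw [e]
      unfold XV
      rw [Finset.mul_sum]
      exact Finset.sum_le_sum fun v hv => hb v (hV1 v hv)
    have hd : 1 / 8 * (∑ m ∈ Z3 N, TL N (aX j) (bX j) m * fV N V m) * mt (QV N) l ≤
        1 / 8 * ((∏ i, Real.log (((j i : ℝ) + 1) / j i) + 2 * κ) * XV N V) * mt (QV N) l := by
      apply mul_le_mul_of_nonneg_right _ hmt0
      linarith
    have he : 0 ≤ om b r * pX r (∑ i, j i) / (3 * Real.log N) :=
      div_nonneg (SWT_coef hr hj) (by positivity)
    refine (mul_le_mul_of_nonneg_left (hc.trans (add_le_add_left hd _)) he).trans (le_of_eq ?_)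
    field_simp
    ring
  refine (Finset.sum_le_sum fun b _ => Finset.sum_le_sum fun r hr => Finset.sum_le_sum fun j hj =>
    hterm b r hr j hj).trans ?_
  have hS' : S = ∑ b : Bool, ∑ r ∈ Icc 3 5, om b r * ∑ j ∈ JX b r, pX r (∑ i, j i) := by
    rw [hS]
    simp only [Finset.mul_sum]
  simp only [Finset.sum_add_distrib, ← Finset.mul_sum]
  rw [← hS']
  have hM : 0 ≤ 1 / 8 * (XV N V / (3 * Real.log N)) * mt (QV N) l := by positivity
  have h4' : 1 / 8 * (XV N V / (3 * Real.log N)) * mt (QV N) l *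
      ∑ b : Bool, ∑ r ∈ Icc 3 5, ∑ j ∈ JX b r,
        om b r * pX r (∑ i, j i) * ∏ i, Real.log (((j i : ℝ) + 1) / j i) ≤
      1 / 8 * (XV N V / (3 * Real.log N)) * mt (QV N) l * (435 / 1000) :=
    mul_le_mul_of_nonneg_left h4 hM
  -- the error
  have hMb : 1 / 8 * (XV N V / (3 * Real.log N)) * mt (QV N) l ≤
      K * (#V * (N : ℝ) ^ 2) / (4 * Real.log N ^ 2) := by
    have ha : 1 / 8 * (XV N V / (3 * Real.log N)) * mt (QV N) l ≤
        1 / 8 * (6 * #V * (N : ℝ) ^ 2 / (3 * Real.log N)) * (K / Real.log N) := by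
      apply mul_le_mul _ hmt hmt0 (by positivity)
      apply mul_le_mul_of_nonneg_left _ (by norm_num)
      exact div_le_div_of_nonneg_right hX2 (by positivity)
    refine ha.trans (le_of_eq ?_)
    field_simp
    ring
  have herr : (1 / 8 * (XV N V / (3 * Real.log N)) * mt (QV N) l * (2 * κ) +
        η * #V * (N : ℝ) ^ 2 / (3 * Real.log N ^ 2)) * S ≤ ε' * #V * (N : ℝ) ^ 2 / Real.log N ^ 2 := by
    have ha : 1 / 8 * (XV N V / (3 * Real.log N)) * mt (QV N) l * (2 * κ) ≤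
        K * (#V * (N : ℝ) ^ 2) / (4 * Real.log N ^ 2) * (2 * κ) :=
      mul_le_mul_of_nonneg_right hMb (by positivity)
    have hb : (1 / 8 * (XV N V / (3 * Real.log N)) * mt (QV N) l * (2 * κ) +
        η * #V * (N : ℝ) ^ 2 / (3 * Real.log N ^ 2)) * S ≤
        (K * (#V * (N : ℝ) ^ 2) / (4 * Real.log N ^ 2) * (2 * κ) +
          η * #V * (N : ℝ) ^ 2 / (3 * Real.log N ^ 2)) * (S + 1) := by
      apply mul_le_mul _ (by linarith) hS0 (by positivity)
      linarith
    refine hb.trans ?_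
    have hc : (K * (#V * (N : ℝ) ^ 2) / (4 * Real.log N ^ 2) * (2 * κ) +
          η * #V * (N : ℝ) ^ 2 / (3 * Real.log N ^ 2)) * (S + 1) =
        5 / 6 * (ε' * #V * (N : ℝ) ^ 2 / Real.log N ^ 2) := by
      rw [hκ, hη]
      field_simp
      ring
    rw [hc]
    have hd : 0 ≤ ε' * #V * (N : ℝ) ^ 2 / Real.log N ^ 2 := by positivity
    linarith
  have hfin : 1 / 8 * (XV N V / (3 * Real.log N)) * mt (QV N) l * (435 / 1000) =
      1 / 8 * (435 / 1000) * (XV N V / (3 * Real.log N)) * mt (QV N) l := by ring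
  rw [← hfin]
  exact add_le_add h4' herr

end Pool.Agent.XE
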