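import Pool.Agent.helper15.XE.SpecS

/-!
# xe:WID (helper66): the wide triangle against a nonprincipal character (port of helper47/SK/WID)
-/

set_option autoImplicit false

namespace Pool.Agent.XE

open Finset ArithmeticFunction MeasureTheory
open Pool.Agent.EC (TL)
open Pool.Agent.SK (tr0 clp cel)

private theorem WID_clp (x : ℝ) : 0 ≤ clp x ∧ clp x ≤ 1 := by
  unfold clp
  refine ⟨le_max_left _ _, max_le (by norm_num) (min_le_left _ _)⟩

private theorem WID_clp_mono {x y : ℝ} (h : x ≤ y) : clp x ≤ clp y := by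
  unfold clp
  exact max_le_max le_rfl (min_le_min le_rfl h)

/-- switching the order of summation -/
private theorem WID_swap (f g : ArithmeticFunction ℝ) (G : ℕ → ℂ) (X : ℕ) :
    ∑ m ∈ Ioc 0 X, (((f * g) m : ℝ) : ℂ) * G m =
      ∑ d ∈ Ioc 0 X, ((f d : ℝ) : ℂ) * ∑ n ∈ Ioc 0 (X / d), ((g n : ℝ) : ℂ) * G (d * n) := by
  have h1 : ∀ m ∈ Ioc 0 X, (((f * g) m : ℝ) : ℂ) * G m =
      ∑ x ∈ m.divisorsAntidiagonal, ((f x.1 : ℝ) : ℂ) * (((g x.2 : ℝ) : ℂ) * G (x.1 * x.2)) := by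
    intro m _
    rw [ArithmeticFunction.mul_apply, Complex.ofReal_sum, sum_mul]
    refine sum_congr rfl fun x hx => ?_
    rw [Nat.mem_divisorsAntidiagonal] at hx
    rw [hx.1, Complex.ofReal_mul]
    ring
  rw [sum_congr rfl h1]
  simp_rw [mul_sum]
  rw [sum_sigma', sum_sigma']
  refine sum_nbij' (fun y => ⟨y.2.1, y.2.2⟩) (fun y => ⟨y.1 * y.2, (y.1, y.2)⟩) ?_ ?_ ?_ ?_ ?_
  · rintro ⟨m, x⟩ hy
    simp only [mem_sigma, mem_Ioc, Nat.mem_divisorsAntidiagonal] at hy ⊢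
    obtain ⟨⟨hm, hmX⟩, hx, _⟩ := hy
    have h3 : 0 < x.1 := Nat.pos_of_ne_zero fun h => by
      rw [h, zero_mul] at hx
      omega
    have h4 : 0 < x.2 := Nat.pos_of_ne_zero fun h => by
      rw [h, mul_zero] at hx
      omega
    refine ⟨⟨h3, ?_⟩, h4, ?_⟩
    · have : x.1 ≤ x.1 * x.2 := Nat.le_mul_of_pos_right _ h4
      omega
    · rw [Nat.le_div_iff_mul_le h3, mul_comm]
      omega
  · rintro ⟨d, n⟩ hy
    simp only [mem_sigma, mem_Ioc, Nat.mem_divisorsAntidiagonal] at hy ⊢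
    obtain ⟨⟨hd, hdX⟩, hn, hnX⟩ := hy
    rw [Nat.le_div_iff_mul_le hd, mul_comm] at hnX
    have : 0 < d * n := Nat.mul_pos hd hn
    exact ⟨⟨this, hnX⟩, trivial, this.ne'⟩
  · rintro ⟨m, x⟩ hy
    simp only [mem_sigma, mem_Ioc, Nat.mem_divisorsAntidiagonal] at hy
    obtain ⟨_, hx, _⟩ := hy
    subst hx
    rfl
  · rintro ⟨d, n⟩ _
    rfl
  · rintro ⟨m, x⟩ _
    rfl

private theorem WID_inner (h1 : Pool.Agent.SK.TRB_stmt) (h2 : Pool.Agent.SK.ABL_stmt) (v δ : ℝ) (hδ : 0 < δ) (c : ℕ → ℂ) (d b : ℕ) (K : ℝ)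
    (hd : 1 ≤ d) (hK : ∀ u ≤ b, ‖∑ n ∈ Ioc 0 u, c n‖ ≤ K) :
    ‖∑ n ∈ Ioc 0 b, c n * ((tr0 v δ (Real.log ((d * n : ℕ) : ℝ)) : ℝ) : ℂ)‖ ≤ 4 * K := by
  have hK0 : 0 ≤ K := (norm_nonneg _).trans (hK 0 (Nat.zero_le _))
  have h6 := (h1 v δ hδ).2.2.2.2.2.1
  have hmono : ∀ s : ℝ, ∀ m n, 0 < m → m ≤ n → n ≤ b →
      clp ((Real.log ((d * m : ℕ) : ℝ) - v) / δ + s) ≤ clp ((Real.log ((d * n : ℕ) : ℝ) - v) / δ + s) := by
    intro s m n hm hmn _
    apply WID_clp_mono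
    have h3 : (0 : ℝ) < ((d * m : ℕ) : ℝ) := by exact_mod_cast Nat.mul_pos hd hm
    have h4 : ((d * m : ℕ) : ℝ) ≤ ((d * n : ℕ) : ℝ) := by exact_mod_cast Nat.mul_le_mul_left d hmn
    have h5 := Real.log_le_log h3 h4
    gcongr
  have key : ∀ s : ℝ, ‖∑ n ∈ Ioc 0 b, c n *
      ((clp ((Real.log ((d * n : ℕ) : ℝ) - v) / δ + s) : ℝ) : ℂ)‖ ≤ 2 * K := by
    intro s
    refine (h2 c (fun n => clp ((Real.log ((d * n : ℕ) : ℝ) - v) / δ + s)) 0 b K
      (fun n => (WID_clp _).1) (hmono s) hK).trans ?_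
    have := (WID_clp ((Real.log ((d * b : ℕ) : ℝ) - v) / δ + s)).2
    have h0 := (WID_clp ((Real.log ((d * b : ℕ) : ℝ) - v) / δ + s)).1
    nlinarith
  have hsum : ∑ n ∈ Ioc 0 b, c n * ((tr0 v δ (Real.log ((d * n : ℕ) : ℝ)) : ℝ) : ℂ) =
      ∑ n ∈ Ioc 0 b, c n * ((clp ((Real.log ((d * n : ℕ) : ℝ) - v) / δ + 1) : ℝ) : ℂ) -
      ∑ n ∈ Ioc 0 b, c n * ((clp ((Real.log ((d * n : ℕ) : ℝ) - v) / δ + 0) : ℝ) : ℂ) := by
    rw [← sum_sub_distrib]
    refine sum_congr rfl fun n _ => ?_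
    rw [h6, add_zero, Complex.ofReal_sub, mul_sub]
  rw [hsum]
  refine (norm_sub_le _ _).trans ?_
  have k1 := key 1
  have k0 := key 0
  linarith

/-- the product of the prime indicators -/
private theorem WID_prod {r : ℕ} (N : ℕ) (hN : 1 ≤ N) (a b : Fin r → ℝ) (s : Finset (Fin r)) :
    (∀ d, 0 ≤ (∏ i ∈ s, cel ((N : ℝ) ^ a i) ((N : ℝ) ^ b i)) d) ∧
    (∀ d : ℕ, (∏ i ∈ s, cel ((N : ℝ) ^ a i) ((N : ℝ) ^ b i)) d ≠ 0 → (d : ℝ) ≤ ∏ i ∈ s, (N : ℝ) ^ b i) ∧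
    (∀ X : ℕ, ∑ d ∈ Ioc 0 X, (∏ i ∈ s, cel ((N : ℝ) ^ a i) ((N : ℝ) ^ b i)) d / (d : ℝ) ≤
      (1 + Real.log X) ^ #s) := by
  induction s using Finset.induction_on with
  | empty =>
    simp only [prod_empty, card_empty, pow_zero]
    refine ⟨fun d => ?_, fun d hd => ?_, fun X => ?_⟩
    · rw [ArithmeticFunction.one_apply]
      split_ifs <;> norm_num
    · rw [ArithmeticFunction.one_apply] at hd
      by_cases h : d = 1
      · rw [h]
        norm_num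
      · rw [if_neg h] at hd
        exact absurd rfl hd
    · have h : ∀ d ∈ Ioc 0 X, (1 : ArithmeticFunction ℝ) d / (d : ℝ) = if d = 1 then (1 : ℝ) else 0 := by
        intro d _
        rw [ArithmeticFunction.one_apply]
        by_cases h : d = 1
        · rw [if_pos h, h]
          norm_num
        · rw [if_neg h, zero_div]
      rw [sum_congr rfl h, sum_ite_eq']
      split_ifs <;> norm_num
  | insert i s hi ih =>
    obtain ⟨ih1, ih2, ih3⟩ := ih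
    rw [prod_insert hi]
    set f := cel ((N : ℝ) ^ a i) ((N : ℝ) ^ b i) with hf
    set P := ∏ i ∈ s, cel ((N : ℝ) ^ a i) ((N : ℝ) ^ b i) with hP
    have hfd : ∀ d, f d = if d.Prime ∧ (N : ℝ) ^ a i ≤ (d : ℝ) ∧ (d : ℝ) < (N : ℝ) ^ b i then 1 else 0 := by
      intro d
      rw [hf]
      rfl
    have hf0 : ∀ d, 0 ≤ f d := by
      intro d
      rw [hfd]
      split_ifs <;> norm_num
    have hf1 : ∀ d, f d ≤ 1 := by
      intro d
      rw [hfd]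
      split_ifs <;> norm_num
    refine ⟨fun d => ?_, fun d hd => ?_, fun X => ?_⟩
    · rw [ArithmeticFunction.mul_apply]
      exact sum_nonneg fun x _ => mul_nonneg (hf0 _) (ih1 _)
    · rw [ArithmeticFunction.mul_apply] at hd
      obtain ⟨x, hx, hx0⟩ := exists_ne_zero_of_sum_ne_zero hd
      rw [Nat.mem_divisorsAntidiagonal] at hx
      have h1 : f x.1 ≠ 0 := left_ne_zero_of_mul hx0
      have h2 : P x.2 ≠ 0 := right_ne_zero_of_mul hx0
      have h3 := ih2 _ h2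
      have h4 : (x.1 : ℝ) ≤ (N : ℝ) ^ b i := by
        rw [hfd] at h1
        by_contra hcon
        apply h1
        rw [if_neg]
        intro h
        exact hcon h.2.2.le
      rw [prod_insert hi, ← hx.1, Nat.cast_mul]
      exact mul_le_mul h4 h3 (Nat.cast_nonneg _) (by positivity)
    · rw [card_insert_of_notMem hi, pow_succ']
      have hlog : 0 ≤ Real.log (X : ℝ) := Real.log_natCast_nonneg X
      have hsw : ∑ d ∈ Ioc 0 X, (f * P) d / (d : ℝ) =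
          ∑ d ∈ Ioc 0 X, f d / (d : ℝ) * ∑ n ∈ Ioc 0 (X / d), P n / (n : ℝ) := by
        have h := WID_swap f P (fun m => ((1 / (m : ℝ) : ℝ) : ℂ)) X
        have h' : ((∑ d ∈ Ioc 0 X, (f * P) d / (d : ℝ) : ℝ) : ℂ) =
            ((∑ d ∈ Ioc 0 X, f d / (d : ℝ) * ∑ n ∈ Ioc 0 (X / d), P n / (n : ℝ) : ℝ) : ℂ) := by
          rw [Complex.ofReal_sum, Complex.ofReal_sum]
          refine Eq.trans (sum_congr rfl fun d _ => ?_) (h.trans (sum_congr rfl fun d _ => ?_))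
          · rw [← Complex.ofReal_mul]
            congr 1
            ring
          · rw [Complex.ofReal_mul, Complex.ofReal_sum, mul_sum, mul_sum]
            refine sum_congr rfl fun n _ => ?_
            rw [← Complex.ofReal_mul, ← Complex.ofReal_mul, ← Complex.ofReal_mul]
            congr 1
            rw [Nat.cast_mul]
            simp only [div_eq_mul_inv, mul_inv, one_mul]
            ring
        exact_mod_cast h'
      rw [hsw]
      have hS : ∀ d ∈ Ioc 0 X, f d / (d : ℝ) * ∑ n ∈ Ioc 0 (X / d), P n / (n : ℝ) ≤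
          1 / (d : ℝ) * (1 + Real.log X) ^ #s := by
        intro d hd
        rw [mem_Ioc] at hd
        have hd0 : (0 : ℝ) < d := by exact_mod_cast hd.1
        refine mul_le_mul ?_ ?_ ?_ (by positivity)
        · gcongr
          exact hf1 d
        · refine le_trans ?_ (ih3 X)
          refine sum_le_sum_of_subset_of_nonneg ?_ ?_
          · exact Ioc_subset_Ioc_right (Nat.div_le_self X d)
          · intro n _ _
            exact div_nonneg (ih1 n) (Nat.cast_nonneg n)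
        · exact sum_nonneg fun n _ => div_nonneg (ih1 n) (Nat.cast_nonneg n)
      refine (sum_le_sum hS).trans ?_
      rw [← sum_mul]
      refine mul_le_mul_of_nonneg_right ?_ (by positivity)
      have hh := harmonic_le_one_add_log X
      rw [harmonic_eq_sum_Icc] at hh
      push_cast at hh
      have : ∑ d ∈ Ioc 0 X, 1 / (d : ℝ) = ∑ i ∈ Icc 1 X, ((i : ℝ))⁻¹ := by
        refine sum_congr ?_ fun d _ => one_div _
        ext d
        simp only [mem_Ioc, mem_Icc]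
        omega
      rw [this]
      exact hh

theorem WID (h1 : Pool.Agent.SK.TRB_stmt) (h2 : Pool.Agent.SK.ABL_stmt) (h3 : Pool.Agent.SK.TLD_stmt) (h4 : Pool.Agent.SK.PSR_stmt) :
    WID_stmt := by
  intro r a b hab A Bq
  have hβ : ∑ i, b i < 3 := hab.2
  obtain ⟨N1, hN1⟩ := h4 (A + r + 1) Bq ((3 - ∑ i, b i) / 2) (by linarith)
  refine ⟨max N1 (⌈Real.exp (256 * 9 ^ r)⌉₊ + 1), ?_⟩
  intro N hN v δ hδ q hq hqL χ hχ
  have hNN1 : N1 ≤ N := (le_max_left _ _).trans hN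
  have hNe : ⌈Real.exp (256 * 9 ^ r)⌉₊ + 1 ≤ N := (le_max_right _ _).trans hN
  have hN1' : 1 ≤ N := by omega
  have hNR : (1 : ℝ) ≤ N := by exact_mod_cast hN1'
  have hL : 256 * 9 ^ r ≤ Real.log N := by
    rw [Real.le_log_iff_exp_le (by linarith)]
    have h5 : Real.exp (256 * 9 ^ r) ≤ ⌈Real.exp (256 * 9 ^ r)⌉₊ := Nat.le_ceil _
    have h6 : ((⌈Real.exp (256 * 9 ^ r)⌉₊ : ℕ) : ℝ) ≤ N := by
      exact_mod_cast (Nat.le_succ _).trans hNe
    linarith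
  have h9r : (1 : ℝ) ≤ 9 ^ r := one_le_pow₀ (by norm_num)
  have hL1 : (1 : ℝ) ≤ Real.log N := by linarith
  have hL0 : (0 : ℝ) < Real.log N := by linarith
  set L := Real.log N with hLdef
  set P := ∏ i, cel ((N : ℝ) ^ a i) ((N : ℝ) ^ b i) with hP
  obtain ⟨hP0, hP1, hP2⟩ := WID_prod N hN1' a b univ
  rw [← hP] at hP0 hP1 hP2
  have hXR : ((64 * N ^ 3 : ℕ) : ℝ) = 64 * (N : ℝ) ^ 3 := by push_cast; ring
  -- the sum as a double sum
  have hsum : ∑ m ∈ Ioc 0 (64 * N ^ 3), ((TL N a b m : ℝ) : ℂ) * χ m * ((tr0 v δ (Real.log m) : ℝ) : ℂ) =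
      ∑ d ∈ Ioc 0 (64 * N ^ 3), ((P d : ℝ) : ℂ) * (χ d * ∑ n ∈ Ioc 0 (64 * N ^ 3 / d),
        ((vonMangoldt n : ℂ) * χ n) * ((tr0 v δ (Real.log ((d * n : ℕ) : ℝ)) : ℝ) : ℂ)) := by
    have h5 : ∀ m ∈ Ioc 0 (64 * N ^ 3), ((TL N a b m : ℝ) : ℂ) * χ m * ((tr0 v δ (Real.log m) : ℝ) : ℂ) =
        (((P * vonMangoldt) m : ℝ) : ℂ) * (χ m * ((tr0 v δ (Real.log m) : ℝ) : ℂ)) := by
      intro m hm
      rw [mem_Ioc] at hm
      rw [h3 r N a b m hm.1, mul_assoc]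
    rw [sum_congr rfl h5, WID_swap P vonMangoldt (fun m => χ m * ((tr0 v δ (Real.log m) : ℝ) : ℂ))]
    refine sum_congr rfl fun d _ => ?_
    congr 1
    rw [mul_sum]
    refine sum_congr rfl fun n _ => ?_
    simp only [Nat.cast_mul, map_mul]
    ring
  rw [hsum]
  refine (norm_sum_le _ _).trans ?_
  have hterm : ∀ d ∈ Ioc 0 (64 * N ^ 3), ‖((P d : ℝ) : ℂ) * (χ d * ∑ n ∈ Ioc 0 (64 * N ^ 3 / d),
      ((vonMangoldt n : ℂ) * χ n) * ((tr0 v δ (Real.log ((d * n : ℕ) : ℝ)) : ℝ) : ℂ))‖ ≤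
      (256 * (N : ℝ) ^ 3 / L ^ (A + r + 1)) * (P d / (d : ℝ)) := by
    intro d hd
    rw [mem_Ioc] at hd
    have hd0 : (0 : ℝ) < d := by exact_mod_cast hd.1
    have hd1 : (1 : ℝ) ≤ d := by exact_mod_cast hd.1
    by_cases hPd : P d = 0
    · rw [hPd, Complex.ofReal_zero, zero_mul, norm_zero, zero_div, mul_zero]
    have hdβ := hP1 d hPd
    rw [← Real.rpow_sum_of_pos (by linarith : (0 : ℝ) < N)] at hdβ
    have hU1 : (N : ℝ) ^ ((3 - ∑ i, b i) / 2) ≤ 64 * (N : ℝ) ^ 3 / d := by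
      rw [le_div_iff₀ hd0]
      have h5 : (N : ℝ) ^ ((3 - ∑ i, b i) / 2) * d ≤
          (N : ℝ) ^ ((3 - ∑ i, b i) / 2) * (N : ℝ) ^ (∑ i, b i) :=
        mul_le_mul_of_nonneg_left hdβ (by positivity)
      rw [← Real.rpow_add (by linarith)] at h5
      have h6 : (N : ℝ) ^ ((3 - ∑ i, b i) / 2 + ∑ i, b i) ≤ (N : ℝ) ^ (3 : ℝ) :=
        Real.rpow_le_rpow_of_exponent_le hNR (by linarith)
      have h7 : (N : ℝ) ^ (3 : ℝ) = (N : ℝ) ^ 3 := by
        rw [← Real.rpow_natCast]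
        norm_num
      rw [h7] at h6
      have h8 : 0 ≤ (N : ℝ) ^ 3 := by positivity
      linarith
    have hU2 : 64 * (N : ℝ) ^ 3 / d ≤ 64 * (N : ℝ) ^ 3 := div_le_self (by positivity) hd1
    have hinner : ‖∑ n ∈ Ioc 0 (64 * N ^ 3 / d), ((vonMangoldt n : ℂ) * χ n) *
        ((tr0 v δ (Real.log ((d * n : ℕ) : ℝ)) : ℝ) : ℂ)‖ ≤ 4 * (64 * (N : ℝ) ^ 3 / d / L ^ (A + r + 1)) := by
      refine WID_inner h1 h2 v δ hδ (fun n => (vonMangoldt n : ℂ) * χ n) d _ _ hd.1 ?_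
      intro u hu
      have hu' : (u : ℝ) ≤ 64 * (N : ℝ) ^ 3 / d := by
        rw [← hXR]
        exact (by exact_mod_cast hu : (u : ℝ) ≤ ((64 * N ^ 3 / d : ℕ) : ℝ)).trans Nat.cast_div_le
      exact (hN1 N hNN1 _ hU1 hU2 u hu').1 q hq hqL χ hχ
    rw [norm_mul, norm_mul, Complex.norm_real, Real.norm_of_nonneg (hP0 d)]
    have hχ1 : ‖χ (d : ZMod q)‖ ≤ 1 := DirichletCharacter.norm_le_one χ _
    have h10 : ‖χ (d : ZMod q)‖ * ‖∑ n ∈ Ioc 0 (64 * N ^ 3 / d), ((vonMangoldt n : ℂ) * χ n) *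
        ((tr0 v δ (Real.log ((d * n : ℕ) : ℝ)) : ℝ) : ℂ)‖ ≤ 1 * (4 * (64 * (N : ℝ) ^ 3 / d / L ^ (A + r + 1))) :=
      mul_le_mul hχ1 hinner (norm_nonneg _) zero_le_one
    refine (mul_le_mul_of_nonneg_left h10 (hP0 d)).trans (le_of_eq ?_)
    field_simp
    ring
  refine (sum_le_sum hterm).trans ?_
  rw [← mul_sum]
  have hS := hP2 (64 * N ^ 3)
  rw [card_univ, Fintype.card_fin, hXR] at hS
  have hlogX : 1 + Real.log (64 * (N : ℝ) ^ 3) ≤ 9 * L := by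
    rw [Real.log_mul (by norm_num) (by positivity), Real.log_pow]
    have h64 : Real.log 64 ≤ 5 := by
      have : (64 : ℝ) = 2 ^ 6 := by norm_num
      rw [this, Real.log_pow]
      have := Real.log_two_lt_d9
      push_cast
      linarith
    push_cast
    rw [← hLdef]
    linarith
  have hlog0 : 0 ≤ 1 + Real.log (64 * (N : ℝ) ^ 3) := by
    have : 0 ≤ Real.log (64 * (N : ℝ) ^ 3) := Real.log_nonneg (by nlinarith [pow_le_pow_left₀ zero_le_one hNR 3])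
    linarith
  have hS' : ∑ d ∈ Ioc 0 (64 * N ^ 3), P d / (d : ℝ) ≤ (9 * L) ^ r :=
    hS.trans (pow_le_pow_left₀ hlog0 hlogX r)
  refine (mul_le_mul_of_nonneg_left hS' (by positivity)).trans ?_
  rw [mul_pow]
  have hpow : L ^ (A + r + 1) = L ^ A * L ^ r * L := by ring
  rw [hpow]
  rw [div_mul_eq_mul_div, div_le_div_iff₀ (by positivity) (by positivity)]
  have hfin : 256 * 9 ^ r * (L ^ r * L ^ A * (N : ℝ) ^ 3) ≤ L * (L ^ r * L ^ A * (N : ℝ) ^ 3) :=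
    mul_le_mul_of_nonneg_right hL (by positivity)
  calc 256 * (N : ℝ) ^ 3 * (9 ^ r * L ^ r) * L ^ A = 256 * 9 ^ r * (L ^ r * L ^ A * (N : ℝ) ^ 3) := by ring
    _ ≤ L * (L ^ r * L ^ A * (N : ℝ) ^ 3) := hfin
    _ = (N : ℝ) ^ 3 * (L ^ A * L ^ r * L) := by ring

end Pool.Agent.XE
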